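import Pool.Agent.DivGap.Final

/-!
Moments of the gaps between the integers in `[n, n ^ k]` with a divisor in `(n, 2 n)`.
-/

open Pool.Agent.DivGap in
/-- For `1 ≤ j` and `3 j ≤ k` the sum of the powers `(a_{i+1} - a_i) ^ (j + 1)` over all pairs of
consecutive elements of the set of integers in `[n, n ^ k]` with a divisor strictly between `n` and
`2 n` is at most `C n ^ k (log n) ^ (j + 1)`, for all sufficiently large `n`. -/
theorem Pool.Agent.Results.MP_7ee532_nt.GapMoments.result (j k : ℕ) (hj : 1 ≤ j)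
    (hjk : 3 * j ≤ k) :
    ∃ C : ℝ, ∃ n0 : ℕ, ∀ n : ℕ, n0 ≤ n →
      ∑ q ∈ gapPairs k n, ((q.2 : ℝ) - (q.1 : ℝ)) ^ (j + 1) ≤
        C * (n : ℝ) ^ k * Real.log n ^ (j + 1) := by
  obtain ⟨i, rfl⟩ : ∃ i, j = i + 1 := ⟨j - 1, by omega⟩
  exact moments i k hjk
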