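import Pool.Agent.DivGap.Lower

/-!
Long gaps between the integers in `[n, n ^ k]` with a divisor in `(n, 2 n)`.
-/

open Pool.Agent.DivGap in
/-- There is `c > 0` such that for infinitely many `n` and every `k` at least `2` there is a pair
`q` of consecutive elements of the set of integers in `[n, n ^ k]` with a divisor strictly between
`n` and `2 n` with `q.2 - q.1` at least `c log n log log n / log log log n`. -/
theorem Pool.Agent.Results.MP_7ee532_nt.LongGaps.result :
    ∃ c : ℝ, 0 < c ∧ ∀ n1 : ℕ, ∃ n : ℕ, n1 ≤ n ∧ ∀ k : ℕ, 2 ≤ k →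
      ∃ q ∈ gapPairs k n,
        c * Real.log n * Real.log (Real.log n) / Real.log (Real.log (Real.log n)) ≤
          (q.2 : ℝ) - (q.1 : ℝ) :=
  lower
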